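import Pool.Agent.U860.Hemi.Lem

/-!
# Automorphisms of the strongly regular graph of a hemisystem which are not induced by collineations

A generalized quadrangle of order `(9, 3)` (280 points, 112 lines) is given by an explicit incidence
matrix, with a hemisystem of 56 lines and an automorphism of the graph of the hemisystem which is
not the restriction of a collineation. All axioms are checked by the kernel. The automorphism maps
the intersection points of two pairs of lines of the hemisystem, which are on a common line (outside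
the hemisystem), to two points which are on no common line.
-/

namespace Pool.Agent.Results.MP_d2fb05_co.NotSurjective

open Pool.Agent.U860.Hemi

/-- A finite generalized quadrangle of order `(s ^ 2, s)`, with the incidence relation `I`. -/
structure IsGQ (s : ℕ) {P L : Type} (I : P → L → Prop) : Prop where
  finite_points : Finite P
  finite_lines : Finite L
  nonempty_points : Nonempty P
  line_card : ∀ l, Nat.card {p // I p l} = s ^ 2 + 1
  point_card : ∀ p, Nat.card {l // I p l} = s + 1
  two_points : ∀ p q l m, p ≠ q → I p l → I q l → I p m → I q m → l = m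
  exists_unique : ∀ p l, ¬ I p l → ∃! q, I q l ∧ ∃ m, I p m ∧ I q m

/-- A hemisystem: every point is on exactly `(s + 1) / 2` lines of `H`. -/
def IsHemisystem (s : ℕ) {P L : Type} (I : P → L → Prop) (H : Set L) : Prop :=
  ∀ p, Nat.card {l // l ∈ H ∧ I p l} = (s + 1) / 2

/-- The graph on `H`: two distinct lines are adjacent if they meet. -/
def graph {P L : Type} (I : P → L → Prop) (H : Set L) : SimpleGraph H where
  Adj l m := l ≠ m ∧ ∃ p, I p l ∧ I p m
  symm := ⟨fun _ _ h => ⟨h.1.symm, h.2.imp fun _ hp => ⟨hp.2, hp.1⟩⟩⟩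
  loopless := ⟨fun _ h => h.1 rfl⟩

/-- The automorphism `g` of the graph is the restriction of a collineation, that is, of a pair of
permutations of the points and of the lines which preserves incidence (the second one then fixes
`H` setwise). -/
def Induced {P L : Type} (I : P → L → Prop) (H : Set L) (g : graph I H ≃g graph I H) : Prop :=
  ∃ (α : P ≃ P) (β : L ≃ L), (∀ p l, I p l ↔ I (α p) (β l)) ∧ β '' H = H ∧
    ∀ l : H, β l = g l

/-- The automorphism of the graph of the hemisystem. -/
def g : graph I {l : Fin 112 | (l : ℕ) < 56} ≃g graph I {l : Fin 112 | (l : ℕ) < 56} where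
  toFun l := ⟨⟨perm ⟨l.1, l.2⟩, (perm ⟨l.1, l.2⟩).2.trans (by norm_num)⟩, (perm ⟨l.1, l.2⟩).2⟩
  invFun l := ⟨⟨perm.symm ⟨l.1, l.2⟩, (perm.symm ⟨l.1, l.2⟩).2.trans (by norm_num)⟩,
    (perm.symm ⟨l.1, l.2⟩).2⟩
  left_inv l := Subtype.ext (Fin.ext (by
    have h := congrArg Fin.val (perm.left_inv ⟨l.1, l.2⟩)
    exact h))
  right_inv l := Subtype.ext (Fin.ext (by
    have h := congrArg Fin.val (perm.right_inv ⟨l.1, l.2⟩)
    exact h))
  map_rel_iff' := by
    intro l m
    have key : ∀ a b : Fin 56, a ≠ b →
        ((∃ p, I p ⟨a, a.2.trans (by norm_num)⟩ ∧ I p ⟨b, b.2.trans (by norm_num)⟩) ↔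
          ∃ p, I p ⟨perm a, (perm a).2.trans (by norm_num)⟩ ∧
            I p ⟨perm b, (perm b).2.trans (by norm_num)⟩) := by
      have key2 : ∀ a b : Fin 112, a ≠ b →
          ((∃ p, I p a ∧ I p b) ↔ Nat.land (M a) (M b) ≠ 0) := by
        intro a b hab
        rcases lt_or_gt_of_ne hab with h | h
        · rw [← (by exact Nat.and_comm _ _ : Nat.land (M b) (M a) = Nat.land (M a) (M b)),
            ← meet_iff (l := b) (m := a) h]
          exact exists_congr fun p => and_comm
        · exact meet_iff h
      have key3 : ∀ a b : Fin 56, (b : ℕ) < a →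
          (Nat.land (M a) (M b) ≠ 0 ↔ Nat.land (M (perm a)) (M (perm b)) ≠ 0) := by
        intro a b hab
        have h := all_iff.1 (all_iff.1 c_adj a a.2) b hab
        have h2 : Nat.beq (Nat.land (M a) (M b)) 0 =
            Nat.beq (Nat.land (M (gv a)) (M (gv b))) 0 := by
          revert h
          cases Nat.beq (Nat.land (M a) (M b)) 0 <;>
            cases Nat.beq (Nat.land (M (gv a)) (M (gv b))) 0 <;> simp
        have h3 : (Nat.land (M a) (M b) = 0 ↔ Nat.land (M (gv a)) (M (gv b)) = 0) := by
          rw [← beq_iff, ← beq_iff, h2]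
        exact not_congr h3
      intro a b hab
      rw [key2 _ _ (fun h => hab (Fin.ext (by have h' := Fin.ext_iff.1 h; exact h'))),
        key2 _ _ (fun h => hab (perm.injective (Fin.ext (by have h' := Fin.ext_iff.1 h; exact h'))))]
      rcases lt_or_gt_of_ne hab with h | h
      · have h1 := key3 b a h
        have e1 : Nat.land (M a) (M b) = Nat.land (M b) (M a) := Nat.and_comm _ _
        have e2 : Nat.land (M (perm a)) (M (perm b)) = Nat.land (M (perm b)) (M (perm a)) :=
          Nat.and_comm _ _
        show Nat.land (M a) (M b) ≠ 0 ↔ Nat.land (M (perm a)) (M (perm b)) ≠ 0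
        rw [e1, e2]
        exact h1
      · exact key3 a b h
    have hne : l ≠ m ↔ (⟨l.1, l.2⟩ : Fin 56) ≠ ⟨m.1, m.2⟩ := by
      refine not_congr ⟨fun h => by rw [h], fun h => ?_⟩
      have h' := Fin.ext_iff.1 h
      exact Subtype.ext (Fin.ext h')
    constructor
    · rintro ⟨h1, h2⟩
      have h3 : l ≠ m := fun h => h1 (by rw [h])
      exact ⟨h3, (key _ _ (hne.1 h3)).2 h2⟩
    · rintro ⟨h1, h2⟩
      refine ⟨fun h => h1 ?_, (key _ _ (hne.1 h1)).1 h2⟩
      have h3 : perm ⟨l.1, l.2⟩ = perm ⟨m.1, m.2⟩ :=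
        Fin.ext (congrArg (fun x : {l : Fin 112 | (l : ℕ) < 56} => ((x : Fin 112) : ℕ)) h)
      have h4 := perm.injective h3
      have h' := Fin.ext_iff.1 h4
      exact Subtype.ext (Fin.ext h')

theorem not_induced : ¬ Induced I {l : Fin 112 | (l : ℕ) < 56} g := by
  rintro ⟨α, β, h1, -, h2⟩
  -- the images of the lines
  have hb : ∀ (a : ℕ) (ha : a < 56), β ⟨a, ha.trans (by norm_num)⟩ =
      ⟨gv a, ((perm ⟨a, ha⟩).2).trans (by norm_num)⟩ := by
    intro a ha
    exact h2 ⟨⟨a, ha.trans (by norm_num)⟩, ha⟩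
  -- the image of an intersection point
  have hp : ∀ (a b p q : ℕ) (ha : a < 56) (hb' : b < 56) (hp : p < 280) (hq : q < 280),
      tb T (280 * a + p) = true → tb T (280 * b + p) = true →
      tb T (280 * gv a + q) = true → tb T (280 * gv b + q) = true → gv a ≠ gv b →
      α ⟨p, hp⟩ = ⟨q, hq⟩ := by
    intro a b p q ha hb' hp hq e1 e2 e3 e4 hne
    by_contra hne2
    have f1 := (h1 ⟨p, hp⟩ ⟨a, ha.trans (by norm_num)⟩).1 e1
    have f2 := (h1 ⟨p, hp⟩ ⟨b, hb'.trans (by norm_num)⟩).1 e2
    rw [hb a ha] at f1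
    rw [hb b hb'] at f2
    exact hne (congrArg Fin.val (two_points hne2 f1 e3 f2 e4))
  have r1 : α ⟨38, by norm_num⟩ = ⟨46, by norm_num⟩ :=
    hp 4 7 38 46 (by norm_num) (by norm_num) (by norm_num) (by norm_num) (by decide +kernel)
      (by decide +kernel) (by decide +kernel) (by decide +kernel) (by decide +kernel)
  have r2 : α ⟨0, by norm_num⟩ = ⟨35, by norm_num⟩ :=
    hp 0 1 0 35 (by norm_num) (by norm_num) (by norm_num) (by norm_num) (by decide +kernel)
      (by decide +kernel) (by decide +kernel) (by decide +kernel) (by decide +kernel)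
  have f1 := (h1 ⟨38, by norm_num⟩ ⟨56, by norm_num⟩).1 (by show tb T _ = true; decide +kernel)
  have f2 := (h1 ⟨0, by norm_num⟩ ⟨56, by norm_num⟩).1 (by show tb T _ = true; decide +kernel)
  rw [r1] at f1
  rw [r2] at f2
  have h3 := (N_iff ⟨46, by norm_num⟩ ⟨35, by norm_num⟩).2 ⟨_, f1, f2⟩
  revert h3
  show (N 46).testBit 35 = true → False
  rw [N_bit (by norm_num)]
  have h4 : tb TN (280 * 46 + 35) = false := by decide +kernel
  rw [h4]
  simp

/-- There is a generalized quadrangle of order `(9, 3)` with a hemisystem whose strongly regular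
graph has an automorphism which is not induced by a collineation. So the statement of the question
is false. -/
theorem result :
    (∃ (P L : Type) (I : P → L → Prop) (H : Set L), IsGQ 3 I ∧ IsHemisystem 3 I H ∧
      ∃ g : graph I H ≃g graph I H, ¬ Induced I H g) ∧
    ¬ ∀ (s : ℕ), Odd s → ∀ (P L : Type) (I : P → L → Prop), IsGQ s I →
      ∀ H : Set L, IsHemisystem s I H → ∀ g : graph I H ≃g graph I H, Induced I H g := by
  have h : ∃ (P L : Type) (I : P → L → Prop) (H : Set L), IsGQ 3 I ∧ IsHemisystem 3 I H ∧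
      ∃ g : graph I H ≃g graph I H, ¬ Induced I H g := by
    refine ⟨Fin 280, Fin 112, I, {l : Fin 112 | (l : ℕ) < 56}, ?_, ?_, g, not_induced⟩
    · exact ⟨inferInstance, inferInstance, ⟨0⟩, line_card, point_card,
        fun p q l m => two_points, gq⟩
    · exact hemi_card
  refine ⟨h, fun h2 => ?_⟩
  obtain ⟨P, L, I, H, h3, h4, g, h5⟩ := h
  exact h5 (h2 3 (by decide) P L I h3 H h4 g)

end Pool.Agent.Results.MP_d2fb05_co.NotSurjective
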